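import Pool.Agent.helper67.QP.SpecE

/-!
# Project qp (MP_ebc808_nt), Theorem Q+: assembly of the final statement from the blocks V, S, C, E
-/

set_option autoImplicit false

open Finset

noncomputable section

namespace Pool.Agent.QP

open Pool.Agent.helper7.IG (kk LL sig DDk MM im2 ps Vx Nb Frame incl)
open Pool.Agent.LQ (FF DD)
open Pool.Agent.EP (KK ww vvx WW JG ac pp IsT)

theorem QFIN_rad (M : ℕ) (hM : M ≠ 0) : ∃ N₂ : ℕ, Squarefree N₂ ∧ N₂.Coprime 6 ∧
    ∀ m : ℕ, m.Coprime (6 * N₂) → m.Coprime 6 ∧ m.Coprime M := by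
  refine ⟨∏ p ∈ M.primeFactors.filter (fun p => ¬ p ∣ 6), p, ?_, ?_, ?_⟩
  · apply Finset.squarefree_prod_of_pairwise_isCoprime
    · intro p hp q hq hpq
      have h1 := (Nat.mem_primeFactors.1 (Finset.mem_filter.1 hp).1).1
      have h2 := (Nat.mem_primeFactors.1 (Finset.mem_filter.1 hq).1).1
      exact Nat.coprime_iff_isRelPrime.1 ((Nat.coprime_primes h1 h2).2 hpq)
    · intro p hp
      exact (Nat.mem_primeFactors.1 (Finset.mem_filter.1 hp).1).1.prime.squarefree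
  · apply Nat.Coprime.prod_left
    intro p hp
    rw [Finset.mem_filter, Nat.mem_primeFactors] at hp
    exact (Nat.Prime.coprime_iff_not_dvd hp.1.1).2 hp.2
  · intro m hm
    have h6 : m.Coprime 6 := Nat.Coprime.coprime_mul_right_right hm
    refine ⟨h6, ?_⟩
    have h2 : m.Coprime (∏ p ∈ M.primeFactors.filter (fun p => ¬ p ∣ 6), p) :=
      Nat.Coprime.coprime_mul_left_right hm
    by_contra hc
    obtain ⟨p, hp, hpm, hpM⟩ := Nat.Prime.not_coprime_iff_dvd.1 hc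
    have hp6 : ¬ p ∣ 6 := by
      intro h
      exact (Nat.not_coprime_of_dvd_of_dvd hp.one_lt hpm h) h6
    have hmem : p ∈ M.primeFactors.filter (fun p => ¬ p ∣ 6) := by
      rw [Finset.mem_filter, Nat.mem_primeFactors]
      exact ⟨⟨hp, hpM, hM⟩, hp6⟩
    exact (Nat.not_coprime_of_dvd_of_dvd hp.one_lt hpm (Finset.dvd_prod_of_mem _ hmem)) h2

theorem QFIN_two (x e : ZMod 2) (h : x ≠ e) : x = e + 1 := by
  revert x e; decide

theorem QFIN_z (e : ZMod 2) : e + 1 = 0 ∨ e + 1 = 1 := by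
  revert e; decide

theorem QFIN (hEJA : EJA_stmt) (hEJC : EJC_stmt) (hEFN : EFN_stmt) (hRLX : RLX_stmt)
    (hSEL : SEL_stmt) (hPSN : PSN_stmt) (hLEMC : LEMC_stmt) (hINVP : INVP_stmt)
    (hUR3 : UR3_stmt) (hINA : INA_stmt) (hUHM : UHM_stmt) (hUHD : UHD_stmt)
    (hURU : URU_stmt) : QPLUS_stmt := by
  intro S hS hD N hN e
  by_contra hinf
  rw [Set.not_infinite] at hinf
  obtain ⟨A, K, hK, hKne, hf⟩ := hEJA S hD
  have hM0 : N * ∏ D ∈ S, D ≠ 0 := by
    apply Nat.mul_ne_zero (by omega)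
    rw [Finset.prod_ne_zero_iff]
    intro D hDS h0
    have := hD D hDS
    rw [h0] at this
    omega
  obtain ⟨N₂, hsq, hN6, hcop⟩ := QFIN_rad _ hM0
  have hN2pos : 0 < N₂ := Nat.pos_of_ne_zero (fun h => by rw [h] at hsq; exact not_squarefree_zero hsq)
  obtain ⟨b, hb⟩ := hinf.bddAbove
  have hcoef : ∀ m : ℕ, b + 1 ≤ m → m.Coprime (6 * N₂) →
      (fK A K).coeff ((m : ℤ) ^ 2) = e + 1 := by
    intro m hm hm2
    obtain ⟨h6, hMc⟩ := hcop m hm2
    have hmN : m.Coprime N := Nat.Coprime.coprime_mul_right_right hMc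
    have hmP : m.Coprime (∏ D ∈ S, D) := Nat.Coprime.coprime_mul_left_right hMc
    have hsum : (fK A K).coeff ((m : ℤ) ^ 2) =
        ∑ D ∈ S, (Fintype.card (Nat.Partition ((D * m ^ 2 + 1) / 24)) : ZMod 2) := by
      rw [hf]
      refine Finset.sum_congr rfl fun D hDS => ?_
      have hmD : m.Coprime D := Nat.Coprime.coprime_dvd_right (Finset.dvd_prod_of_mem _ hDS) hmP
      rw [hEJC D m (hD D hDS) h6 hmD]
      rfl
    rw [hsum]
    apply QFIN_two
    intro he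
    have hmem : m ∈ {m : ℕ | m.Coprime (6 * N) ∧
        (∑ D ∈ S, (Fintype.card (Nat.Partition ((D * m ^ 2 + 1) / 24)) : ZMod 2)) = e} :=
      ⟨Nat.Coprime.mul_right h6 hmN, he⟩
    have := hb hmem
    omega
  -- the sets `NN a`
  have hNN : ∀ a : ℕ, ∃ NN : Finset ℕ, a < A → Rel NN (K a) := by
    intro a
    by_cases ha : a < A
    · obtain ⟨NN, h⟩ := hRLX (K a) (hK a ha)
      exact ⟨NN, fun _ => h⟩
    · exact ⟨∅, fun h => absurd h ha⟩
  choose NN hNN using hNN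
  set Nb := ∏ a ∈ range A, ∏ n ∈ NN a, n with hNb
  have hodd : Odd Nb := by
    rw [hNb]
    refine Finset.prod_induction _ Odd (fun _ _ => Odd.mul) odd_one ?_
    intro a ha
    refine Finset.prod_induction _ Odd (fun _ _ => Odd.mul) odd_one ?_
    intro n hn
    exact (hNN a (Finset.mem_range.1 ha)).1 n hn
  have hdvd : ∀ a < A, ∀ n ∈ NN a, n ∣ Nb := by
    intro a ha n hn
    exact (Finset.dvd_prod_of_mem _ hn).trans
      (Finset.dvd_prod_of_mem (fun a => ∏ n ∈ NN a, n) (Finset.mem_range.2 ha))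
  obtain ⟨c, hc⟩ := hSEL Nb A NN K hodd hNN hdvd
  have hRUm : ∀ m, Odd m → ∀ ζ : kkˣ, ζ ∈ RU m ↔ ζ ^ m = 1 := fun m hm => (hURU m hm).1
  have hpsi3 : Inv3 (psi (fK A K)) :=
    hINVP _ c Nb A NN hRUm hodd
      (fun a ha n hn => ⟨(hNN a ha).1 n hn, hdvd a ha n hn⟩) hc
  have hUU3 : Inv3 UU := hUR3 hUHM hUHD
  obtain ⟨P, Q, hP, hPQ⟩ := hEFN (fK A K) (e + 1) N₂ (b + 1) hN2pos hcoef
  have hG3 : Inv3 (psi (fK A K) + algebraMap (ZMod 2) kk (e + 1) • UU) := by
    rcases (QFIN_z e) with h | h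
    · rw [h, map_zero, zero_smul, add_zero]; exact hpsi3
    · rw [h, map_one, one_smul]; exact hINA _ _ hpsi3 hUU3
  obtain ⟨c', hc'⟩ := hLEMC _ N₂ hG3 hsq hN6 ⟨P, Q, hP, hPQ⟩
  have hsig := congrArg (sig Nb 1) hc'
  rw [map_add, hc, AlgHom.commutes] at hsig
  have h2 : ∀ x : LL, x + x = 0 := by
    intro x
    have : (2 : LL) = 0 := by
      have h3 : ((2 : ℕ) : kk) = 0 := by
        have := CharP.cast_eq_zero kk 2
        exact this
      have h4 : (algebraMap kk LL) ((2 : ℕ) : kk) = 0 := by rw [h3, map_zero]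
      rw [map_natCast] at h4
      exact_mod_cast h4
    rw [← two_mul, this, zero_mul]
  obtain ⟨hp1, hp2⟩ := hPSN Nb A NN K hodd hNN (hKne hS) hdvd (c + c')
  rcases (QFIN_z e) with h | h
  · rw [h, map_zero, zero_smul, map_zero, add_zero] at hsig
    apply hp1
    rw [map_add, ← hsig, ← add_assoc, h2, zero_add]
  · rw [h, map_one, one_smul] at hsig
    apply hp2
    rw [map_add, ← hsig]
    have : algebraMap kk LL c + (algebraMap kk LL c + XI Nb A NN + sig Nb 1 UU) =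
        (algebraMap kk LL c + algebraMap kk LL c) + (XI Nb A NN + sig Nb 1 UU) := by ring
    rw [this, h2, zero_add]

end Pool.Agent.QP
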