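import Pool.Agent.helper19.QP.SpecM

set_option autoImplicit false

open Polynomial Pool.Agent.helper7.IG

noncomputable section

namespace Pool.Agent.QP

theorem KEA_ord (x : LL) (a : ℤ) (h0 : ∀ n : ℤ, n < a → x.coeff n = 0) (h1 : x.coeff a ≠ 0) :
    x ≠ 0 ∧ x.order = a := by
  have hx : x ≠ 0 := by
    rintro rfl
    exact h1 (HahnSeries.coeff_zero)
  refine ⟨hx, le_antisymm (HahnSeries.order_le_of_coeff_ne_zero h1) ?_⟩
  by_contra hc
  rw [not_le] at hc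
  exact (HahnSeries.coeff_order_eq_zero.not.2 hx) (h0 _ hc)

theorem KEA_mul (x y : LL) (a b : ℤ) (hx0 : ∀ n : ℤ, n < a → x.coeff n = 0) (hx1 : x.coeff a ≠ 0)
    (hy0 : ∀ n : ℤ, n < b → y.coeff n = 0) (hy1 : y.coeff b ≠ 0) :
    (x * y).coeff (a + b) ≠ 0 ∧ ∀ n : ℤ, n < a + b → (x * y).coeff n = 0 := by
  obtain ⟨hx, ox⟩ := KEA_ord x a hx0 hx1
  obtain ⟨hy, oy⟩ := KEA_ord y b hy0 hy1
  have hxy : x * y ≠ 0 := mul_ne_zero hx hy
  have ho : (x * y).order = a + b := by rw [HahnSeries.order_mul hx hy, ox, oy]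
  refine ⟨?_, fun n hn => ?_⟩
  · rw [← ho]; exact HahnSeries.coeff_order_eq_zero.not.2 hxy
  · exact HahnSeries.coeff_eq_zero_of_lt_order (by rw [ho]; exact hn)

theorem KEA_ev2 (G : Polynomial (Polynomial kk)) (e : ℕ) (ζ : kkˣ) (x y : LL) :
    sig e ζ (ev2 G x y) = ev2 G (sig e ζ x) (sig e ζ y) := by
  unfold ev2
  have h := Polynomial.hom_eval₂ G (aeval (R := kk) y).toRingHom (sig e ζ).toRingHom x
  refine h.trans ?_
  congr 1
  ext
  · simp
  · simp

theorem KEA_TL (hANF : ANF_stmt) (l B : ℕ) (F : LL) (hl : l.Prime) (hB : B ≠ 0) :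
    TL l B F = sig (l * B) 1 F + HU l B F (l * B, 1) := by
  classical
  unfold TL HU
  have hmem : ((l * B, 1) : Vx) ∈ AN l B := by
    rw [(hANF l B hl hB).1]
    left
    exact ⟨rfl, by simp⟩
  rw [← Finset.add_sum_erase _ _ hmem]
  ring

theorem KEA (hANF : ANF_stmt) (hHHC : HHC_stmt) (hTAY : TAY_stmt) : KEA_stmt := by
  intro F G l B s n₀ hF hl hl2 hB hlB hrel hW0 hW1 hH0 hH1 hn
  have hB0 : B ≠ 0 := by rintro rfl; simp at hB
  have hBpos : 0 < B := Nat.pos_of_ne_zero hB0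
  have hB3 : Odd (3 * B) := (by decide : Odd 3).mul hB
  have hl0 : l ≠ 0 := hl.ne_zero
  have hlB0 : l * B ≠ 0 := Nat.mul_ne_zero hl0 hB0
  set f : LL := sig (l * B) 1 F with hf
  set f' : LL := sig (l * (3 * B)) 1 F with hf'
  set d : LL := HU l B F (l * B, 1) with hd
  set d' : LL := HU l (3 * B) F (l * (3 * B), 1) with hd'
  have hE : EE2 G l B F = ev2 G (f + d) (f' + d') := by
    unfold EE2
    rw [KEA_TL hANF l B F hl hB0, KEA_TL hANF l (3 * B) F hl (by omega)]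
  have hff : f' = sig (l * B) 1 (sig 3 1 F) := by
    rw [sig_sig hlB0 (by norm_num)]
    simp only [hf']
    congr 2
    · ring
    · simp
  have hdn : ∀ n : ℤ, n < ((B * n₀ : ℕ) : ℤ) → d.coeff n = 0 := by
    intro n hn'
    rw [hd, hHHC l B F hl hl2 hB hlB]
    split_ifs with h
    · obtain ⟨t, rfl⟩ := h
      rw [Int.mul_ediv_cancel_left _ (by exact_mod_cast hB0)]
      apply hH0
      push_cast at hn'
      exact lt_of_mul_lt_mul_left hn' (by positivity)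
    · rfl
  have hdn1 : d.coeff ((B * n₀ : ℕ) : ℤ) ≠ 0 := by
    rw [hd, hHHC l B F hl hl2 hB hlB, if_pos (by push_cast; exact dvd_mul_right _ _)]
    have e : (((B * n₀ : ℕ) : ℤ)) / B = n₀ := by
      push_cast
      rw [Int.mul_ediv_cancel_left _ (by exact_mod_cast hB0)]
    rw [e]
    exact hH1
  have hdn' : ∀ n : ℤ, n < ((2 * (B * n₀) : ℕ) : ℤ) → d'.coeff n = 0 := by
    intro n hn'
    rw [hd', hHHC l (3 * B) F hl hl2 hB3 (Dvd.dvd.mul_left hlB 3)]
    split_ifs with h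
    · obtain ⟨t, rfl⟩ := h
      rw [Int.mul_ediv_cancel_left _ (by exact_mod_cast (by omega : 3 * B ≠ 0))]
      apply hH0
      push_cast at hn'
      have hBp : (0 : ℤ) < B := by exact_mod_cast hBpos
      by_contra hc
      rw [not_lt] at hc
      have : (B : ℤ) * n₀ ≤ B * t := mul_le_mul_of_nonneg_left hc hBp.le
      have h5 : (0 : ℤ) ≤ B * n₀ := by positivity
      nlinarith
    · rfl
  have hfn : ∀ n : ℤ, n < 0 → f.coeff n = 0 ∧ f'.coeff n = 0 := fun n hn' =>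
    ⟨sig_coeff_neg_of hlB0 1 F hF n hn',
      sig_coeff_neg_of (Nat.mul_ne_zero hl0 (by omega)) 1 F hF n hn'⟩
  have hcast : ((2 * (B * n₀) : ℕ) : ℤ) = 2 * ((B * n₀ : ℕ) : ℤ) := by push_cast; ring
  have hT := hTAY G f f' d d' (B * n₀) hfn hdn (fun n hn' => hdn' n (by rw [hcast]; exact hn'))
  have h0 : ev2 G f f' = 0 := by
    rw [hff, hf, ← KEA_ev2, hrel, map_zero]
  have h1 : ev2 (derivative G) f f' = sig (l * B) 1 (ev2 (derivative G) F (sig 3 1 F)) := by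
    rw [hff, hf, ← KEA_ev2]
  rw [h0, h1, zero_add] at hT
  set W : LL := ev2 (derivative G) F (sig 3 1 F) with hW
  have hS0 : ∀ n : ℤ, n < ((l * B * s : ℕ) : ℤ) → (sig (l * B) 1 W).coeff n = 0 := by
    intro n hn'
    by_cases h : ((l * B : ℕ) : ℤ) ∣ n
    · obtain ⟨t, rfl⟩ := h
      rw [sig_coeff_mul hlB0]
      have ht : t < s := by
        push_cast at hn'
        have hp : (0 : ℤ) < (l : ℤ) * B := by
          have := Nat.pos_of_ne_zero hlB0
          exact_mod_cast this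
        exact lt_of_mul_lt_mul_left hn' hp.le
      rw [hW0 t ht, mul_zero]
    · exact sig_coeff_of_not_dvd hlB0 _ _ _ h
  have hS1 : (sig (l * B) 1 W).coeff ((l * B * s : ℕ) : ℤ) ≠ 0 := by
    have e : ((l * B * s : ℕ) : ℤ) = ((l * B : ℕ) : ℤ) * (s : ℤ) := by push_cast; ring
    rw [e, sig_coeff_mul hlB0]
    simpa using hW1
  obtain ⟨hm1, hm0⟩ := KEA_mul _ _ _ _ hS0 hS1 hdn hdn1
  have hsum : ((l * B * s : ℕ) : ℤ) + ((B * n₀ : ℕ) : ℤ) = ((B * (l * s + n₀) : ℕ) : ℤ) := by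
    push_cast; ring
  rw [hsum] at hm1 hm0
  have hlt : ((B * (l * s + n₀) : ℕ) : ℤ) < 2 * ((B * n₀ : ℕ) : ℤ) := by
    have : B * (l * s + n₀) < 2 * (B * n₀) := by
      have : B * (l * s) < B * n₀ := Nat.mul_lt_mul_of_pos_left hn hBpos
      nlinarith
    exact_mod_cast this
  rw [hE]
  refine ⟨?_, fun n hn' => ?_⟩
  · rw [hT _ hlt]; exact hm1
  · rw [hT _ (hn'.trans hlt)]; exact hm0 n hn'

end Pool.Agent.QP
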