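import Mathlib

/-!
# Project qp (MP_ebc808_nt), Theorem Q+: the final statement

`p(n) = Fintype.card (Nat.Partition n)`. For `D ≡ 23 (mod 24)` and `m` prime to 6 the number
`(D m^2 + 1)/24` is an integer.
-/

set_option autoImplicit false

namespace Pool.Agent.QP

/-- **Theorem Q+.** The parity sequences of `p` on the quadratic polynomials `(D m^2 + 1)/24`,
`D ≡ 23 (mod 24)`, restricted to the `m` prime to `N`, are linearly independent, together with the
constant `1` and modulo finite sequences: for every nonempty finite set `S` of such `D`, every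
`N ≥ 1` and every `e` there are infinitely many `m` prime to `6 N` with
`∑_{D ∈ S} p((D m^2 + 1)/24) ≡ e (mod 2)`. -/
def QPLUS_stmt : Prop :=
  ∀ S : Finset ℕ, S.Nonempty → (∀ D ∈ S, D % 24 = 23) → ∀ N : ℕ, 1 ≤ N → ∀ e : ZMod 2,
    {m : ℕ | m.Coprime (6 * N) ∧
      (∑ D ∈ S, (Fintype.card (Nat.Partition ((D * m ^ 2 + 1) / 24)) : ZMod 2)) = e}.Infinite

end Pool.Agent.QP
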