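import Pool.Agent.helper67.QP.SpecE

/-!
# Project qp (MP_ebc808_nt), Theorem Q+: row EFN
-/

set_option autoImplicit false

open Finset

noncomputable section

namespace Pool.Agent.QP

open Pool.Agent.helper7.IG (kk LL sig DDk MM im2 ps Vx Nb Frame incl ps_coeff_nat ps_coeff_neg)
open Pool.Agent.LQ (FF DD)
open Pool.Agent.EP (KK ww vvx WW JG ac pp IsT)

/-- the coefficient of `psi f + e UU` -/
theorem EFN_coeff (f : KK) (e : ZMod 2) (n : ℕ) :
    (psi f + algebraMap (ZMod 2) kk e • UU).coeff (n : ℤ) =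
      ∑ m ∈ n.divisors with m.Coprime 6, algebraMap (ZMod 2) kk (f.coeff ((m : ℤ) ^ 2) + e) := by
  rw [HahnSeries.coeff_add, HahnSeries.coeff_smul]
  unfold psi UU
  rw [ps_coeff_nat, ps_coeff_nat, map_sum]
  have h1 : algebraMap (ZMod 2) kk e • (((#{m ∈ n.divisors | m.Coprime 6} : ℕ)) : kk) =
      ∑ m ∈ n.divisors with m.Coprime 6, algebraMap (ZMod 2) kk e := by
    rw [Finset.sum_const, nsmul_eq_mul, smul_eq_mul, mul_comm]
  rw [h1, ← Finset.sum_add_distrib]
  exact Finset.sum_congr rfl fun m _ => (map_add _ _ _).symm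

theorem EFN_coeff_neg (f : KK) (e : ZMod 2) (n : ℤ) (hn : n ≤ 0) :
    (psi f + algebraMap (ZMod 2) kk e • UU).coeff n = 0 := by
  rcases lt_or_eq_of_le hn with h | h
  · rw [HahnSeries.coeff_add, HahnSeries.coeff_smul]
    unfold psi UU
    rw [ps_coeff_neg _ _ h, ps_coeff_neg _ _ h, smul_zero, add_zero]
  · subst h
    have := EFN_coeff f e 0
    rw [Nat.divisors_zero, Finset.filter_empty, Finset.sum_empty] at this
    exact_mod_cast this

theorem EFN (hEPR : EPR_stmt) : EFN_stmt := by
  intro f e N m₀ hN hf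
  set β : ℕ → kk := fun m => algebraMap (ZMod 2) kk (f.coeff ((m : ℤ) ^ 2) + e) with hβ
  have h2 : ∀ x : ZMod 2, x + x = 0 := by decide
  set F : ℤ → kk := fun n => ∑ m ∈ range m₀ with m.Coprime 6, if (m : ℤ) ∣ n then β m else 0 with hF
  -- the coefficients
  have hH : ∀ n : ℤ, 0 < n → (PN N (psi f + algebraMap (ZMod 2) kk e • UU)).coeff n =
      if Int.gcd n (N : ℤ) = 1 then F n else 0 := by
    intro n hn
    rw [PN_coeff]
    by_cases hg : Int.gcd n (N : ℤ) = 1
    · rw [if_pos hg, if_pos hg]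
      obtain ⟨n', rfl⟩ := Int.eq_ofNat_of_zero_le hn.le
      have hn' : 0 < n' := by exact_mod_cast hn
      rw [EFN_coeff, hF]
      simp only
      rw [← Finset.sum_filter]
      have hgn : Nat.Coprime n' N := by
        have : Int.gcd (n' : ℤ) (N : ℤ) = Nat.gcd n' N := Int.gcd_natCast_natCast _ _
        rw [this] at hg
        exact hg
      refine (Finset.sum_subset ?_ ?_).symm
      · intro m hm
        rw [Finset.mem_filter, Finset.mem_filter] at hm
        rw [Finset.mem_filter, Nat.mem_divisors]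
        exact ⟨⟨by exact_mod_cast hm.2, hn'.ne'⟩, hm.1.2⟩
      · intro m hm hm2
        rw [Finset.mem_filter, Nat.mem_divisors] at hm
        have hge : m₀ ≤ m := by
          by_contra hlt
          apply hm2
          rw [Finset.mem_filter, Finset.mem_filter, Finset.mem_range]
          exact ⟨⟨by omega, hm.2⟩, by exact_mod_cast hm.1.1⟩
        have hcop : m.Coprime (6 * N) :=
          Nat.Coprime.mul_right hm.2 (Nat.Coprime.coprime_dvd_left hm.1.1 hgn)
        rw [hf m hge hcop, h2, map_zero]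
    · rw [if_neg hg, if_neg hg]
  apply hEPR _ (N * m₀.factorial) (Nat.mul_pos hN (Nat.factorial_pos _))
  · intro n hn
    rw [PN_coeff, EFN_coeff_neg f e n hn, ite_self]
  · intro n hn
    have hpos : 0 < n + ((N * m₀.factorial : ℕ) : ℤ) := by positivity
    rw [hH _ hpos, hH n hn]
    have hgcd : Int.gcd (n + ((N * m₀.factorial : ℕ) : ℤ)) (N : ℤ) = Int.gcd n (N : ℤ) := by
      push_cast
      rw [Int.gcd_add_mul_left_left]
    rw [hgcd]
    have hFF : F (n + ((N * m₀.factorial : ℕ) : ℤ)) = F n := by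
      rw [hF]
      simp only
      refine Finset.sum_congr rfl fun m hm => ?_
      rw [Finset.mem_filter, Finset.mem_range] at hm
      have hm0 : m ≠ 0 := by
        rintro rfl
        have := hm.2
        rw [Nat.coprime_zero_left] at this
        omega
      have hdv : (m : ℤ) ∣ ((N * m₀.factorial : ℕ) : ℤ) := by
        have : m ∣ N * m₀.factorial :=
          Dvd.dvd.mul_left (Nat.dvd_factorial (Nat.pos_of_ne_zero hm0) hm.1.le) N
        exact_mod_cast this
      have hiff : (m : ℤ) ∣ n + ((N * m₀.factorial : ℕ) : ℤ) ↔ (m : ℤ) ∣ n :=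
        dvd_add_left hdv
      by_cases h : (m : ℤ) ∣ n
      · rw [if_pos h, if_pos (hiff.2 h)]
      · rw [if_neg h, if_neg (fun h' => h (hiff.1 h'))]
    rw [hFF]

end Pool.Agent.QP
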