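import Pool.Agent.helper67.QP.QFIN
import Pool.Agent.helper67.QP.EFN
import Pool.Agent.helper19.QP.AllVS
import Pool.Agent.helper7.IG.Fin
import Pool.Agent.helper30.QP.CJG
import Pool.Agent.helper30.QP.CJN
import Pool.Agent.helper30.QP.HCX
import Pool.Agent.helper30.QP.INVP
import Pool.Agent.helper30.QP.UPM
import Pool.Agent.helper32.QP.HEX
import Pool.Agent.helper34.QP.ONE
import Pool.Agent.helper58.QP.DVM
import Pool.Agent.helper69.QP.DSC
import Pool.Agent.helper69.QP.EJC
import Pool.Agent.helper69.QP.EPR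
import Pool.Agent.helper69.QP.INA
import Pool.Agent.helper69.QP.LEMC
import Pool.Agent.helper69.QP.PMM
import Pool.Agent.helper69.QP.PNA
import Pool.Agent.helper69.QP.RAT
import Pool.Agent.helper69.QP.UNI
import Pool.Agent.helper69.QP.UR3
import Pool.Agent.helper9.QP.PNS
import Pool.Agent.helper90.QP.DWN
import Pool.Agent.helper31.QP.EJA

/-!
# Project qp (MP_ebc808_nt): Theorem Q+ without hypotheses
-/

set_option autoImplicit false

noncomputable section

namespace Pool.Agent.QP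

open Pool.Agent.helper7.IG

theorem ig_THM : THM_stmt := THM_of R0 R1
theorem ig_PSI : PSI_stmt := asm_psi F1 (MB3_of MA)
theorem ig_ME : ME_stmt := ME_of ig_PSI
theorem ig_DI : DI_stmt := DI_of ig_ME
theorem ig_NB : NB_stmt := NB_of ig_PSI ig_ME
theorem ig_NF : NF_stmt := NF_of ig_PSI ig_ME
theorem ig_FR : FR_stmt := FR_of ig_ME ig_THM
theorem ig_TYM : TYM_stmt := TYM_of ig_NB
theorem ig_IND : IND_stmt := IND_of TC

theorem all_PNA : PNA_stmt := PNA
theorem all_PNS : PNS_stmt := PNS PNA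
theorem all_PMM : PMM_stmt := PMM all_PNS ig_ME
theorem all_HEX : HEX_stmt := HEX ig_ME ig_DI ig_NB ig_NF TY ig_TYM
theorem all_UPM : UPM_stmt := UPM UNI ig_DI ig_NB
theorem all_DNM : DNM_stmt := DNM UNI ig_DI ig_NB
theorem all_HVS : HVS_stmt := HVS all_UPM all_DNM
theorem all_HPN : HPN_stmt := HPN all_PNS all_HVS ig_ME
theorem all_ONE : ONE_stmt := ONE PNA all_PMM all_HEX all_HPN DSC ig_FR ig_DI ig_NB ig_ME
theorem all_RAT : RAT_stmt := RAT ig_IND
theorem all_LEMC : LEMC_stmt := LEMC all_PMM all_RAT all_ONE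
theorem all_CJS : CJS_stmt := CJS (CJG CJN ig_NB) ig_DI ig_ME DVM
theorem all_INVP : INVP_stmt := INVP all_CJS HCX (DWN ig_PSI) DVM ig_ME

/-- **Theorem Q+** -/
theorem all_Q : QPLUS_stmt :=
  QFIN EJA EJC (EFN EPR) RLX all_SEL all_PSN all_LEMC all_INVP (UR3 DVM ig_ME) (INA ig_ME)
    UHM all_UHD URU

end Pool.Agent.QP
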