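import Pool.Agent.helper19.QP.SpecM

/-!
# Project qp (MP_ebc808_nt), Theorem Q**: the form of the hand-in
-/

set_option autoImplicit false

open Finset

namespace Pool.Agent.QP

/-- **Theorem Q\*\***, form of the hand-in. -/
def QTWO_stmt : Prop :=
  ∀ S : Finset ℕ, S.Nonempty → (∀ D ∈ S, D % 24 = 23) → ∀ N : ℕ, 1 ≤ N → ∀ e : ZMod 2,
    (∃ C : ℕ, ∀ l : ℕ, l.Prime → C ≤ l → ∃ m : ℕ, 0 < m ∧ m ≤ C * l ^ 2 ∧ l ∣ m ∧ m.Coprime (6 * N) ∧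
      ∑ D ∈ S, (Fintype.card (Nat.Partition ((D * m ^ 2 + 1) / 24)) : ZMod 2) = e) ∧
    (∃ c : ℝ, 0 < c ∧ ∃ X₀ : ℕ, ∀ X : ℕ, X₀ ≤ X →
      c * √X / Real.log X ≤ (#{m ∈ range (X + 1) | m.Coprime (6 * N) ∧
        ∑ D ∈ S, (Fintype.card (Nat.Partition ((D * m ^ 2 + 1) / 24)) : ZMod 2) = e} : ℝ))

theorem QFIN2 (h : QSQRT_stmt) : QTWO_stmt := by
  intro S hS hD N hN e
  obtain ⟨⟨C, h1⟩, c, hc, h2⟩ := h S hS hD N hN e
  refine ⟨⟨C, fun l hl hC => ?_⟩, c, hc, ?_⟩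
  · obtain ⟨m, m0, hlm, hm, hcop, hsum⟩ := h1 l hl hC
    exact ⟨m, m0, hm, hlm, hcop, hsum⟩
  · obtain ⟨X₀, hX⟩ := Filter.eventually_atTop.1 h2
    refine ⟨X₀, fun X hXX => ?_⟩
    have h3 := hX X hXX
    rw [← Real.sqrt_eq_rpow] at h3
    refine h3.trans (le_of_eq ?_)
    congr 1
    rw [← Set.ncard_coe_finset]
    congr 1
    ext m
    simp only [Set.mem_setOf_eq, Finset.coe_filter, Finset.mem_range, Nat.lt_succ_iff]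
    tauto

end Pool.Agent.QP
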