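import Pool.Agent.helper67.QP.Stm
import Pool.Agent.helper19.QP.SpecV
import Pool.Agent.helper19.QP.SpecS
import Pool.Agent.helper30.QP.SpecC

/-!
# Project qp (MP_ebc808_nt), Theorem Q+: block E (the end)

`QPLUS_stmt` (Pool/Agent/helper67/QP/Stm.lean) from the blocks V, S, C. `KK` = Laurent series over the field with two elements, `ww` the series
with coefficients `ac` (`ac M = p((M+1)/24)` modulo 2 for `M = 23 mod 24`), `JG ac D` the coefficients of its image under the Hecke operator `T_D`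
(EP, Pool/Agent/helper7/EP/Defs.lean and SpecH.lean; `Pool.Agent.EP.all_JW`, `JN`, `WM`, `all_NEG` in Pool/Agent/helper7/EP/AllH.lean are proved).

RULES. Row `XX`: file `Pool/Agent/<seat>/QP/XX.lean`, import this file (and the landed files named in the docstring), `namespace Pool.Agent.QP`,
auxiliary lemmas prefixed `XX_`, other rows only as hypotheses `(hYY : YY_stmt)`.
-/

set_option autoImplicit false

open Finset

noncomputable section

namespace Pool.Agent.QP

open Pool.Agent.helper7.IG (kk LL sig DDk MM im2 ps Vx Nb Frame incl)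
open Pool.Agent.LQ (FF DD)
open Pool.Agent.EP (KK ww vvx WW JG ac pp IsT)

/-- **EJA** (medium, 110 lines; uses `EP.JW_stmt`, `EP.JN_stmt`, `EP.WM_stmt` (all proved, you may import Pool.Agent.helper7.EP.AllH and use `EP.all_JW`, `EP.JN`, `EP.WM`)). The series `∑_{D ∈ S} J_D` as a series `fK`.
Proof. For `D ∈ S` (`D > 0`, prime to 6) let `g_D ∈ WW` be the element with coefficients `JG ac D`; `g = ∑_D g_D ∈ WW`. An element of `WW` is `∑_{i ∈ I} ww^i` for a finite set `I` of positive integers (span over the field with two elements: `Submodule.span_induction` with `symmDiff`).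
Let `I' = {i ∈ I | i % 24 = 23}`, `g' = ∑_{i ∈ I'} ww^i`. `g = g'`: the coefficient of `ww^i` at `M` is `0` unless `24 ∣ M + i` (WM). If `M % 24 = 1` only the `i = 23 mod 24` contribute, so the coefficients of `g` and `g'` at `M` agree. If `M % 24 ≠ 1` that of `g'` is `0`, and that of `g` is `∑_D JG ac D M`, also `0`: a nonzero term
`ac (D M/d^2)` has `N = D M/d^2 = 23 mod 24`, `N d^2 = D M` (`d ∣ D`, `d ∣ M`, exact), `d` prime to 6, `d^2 = 1 mod 24`, so `D M = 23 mod 24`, `23 M = 23`, `M = 1 mod 24`. The map `(a, k) ↦ 24 2^a k - 1` (`k` odd) is a bijection onto the `i = 23 mod 24`: let `A` be larger than all elements of `I'` and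
`K a = {k ∈ range A | Odd k ∧ 24 (2^a k) - 1 ∈ I'}`; then `fK A K = ∑_{i ∈ I'} ww^i` (`Finset.sum_sigma'`, `Finset.sum_bij`; `i + 1 = 24 m`, `m = 2^a k` (`Nat.exists_eq_two_pow_mul_odd`), `a, k ≤ m < A`). If `S` is not empty let `D₀ ∈ S`: the coefficient at `-D₀` is `1` (JN: `JG ac D (-D₀) = 1` iff `D = D₀`), so `I'` is not empty,
and some `K a`, `a < A`, is not empty. -/
def EJA_stmt : Prop := ∀ S : Finset ℕ, (∀ D ∈ S, D % 24 = 23) →
  ∃ (A : ℕ) (K : ℕ → Finset ℕ), (∀ a < A, ∀ k ∈ K a, Odd k) ∧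
    (S.Nonempty → ∃ a < A, (K a).Nonempty) ∧
    ∀ M : ℤ, (fK A K).coeff M = ∑ D ∈ S, JG ac D M

/-- **EJC** (short, 40 lines). The coefficient of `J_D` at `m^2`. Proof. A divisor `d` of `D` with `d ∣ m^2` is `1` (`m` prime to `D`). `D m^2 % 24 = 23` as `m^2 % 24 = 1`. So `JG ac D (m^2) = ac (D m^2) = pp ((D m^2 + 1)/24)`. -/
def EJC_stmt : Prop := ∀ D m : ℕ, D % 24 = 23 → m.Coprime 6 → m.Coprime D →
  JG ac D ((m : ℤ) ^ 2) = pp ((D * m ^ 2 + 1) / 24)

/-- **EPR** (short, 60 lines). A series with periodic coefficients is a rational function. Proof. `P = 1 + X^L`, `Q = ∑_{n=1}^{L} C (H.coeff n) X^n`. `incl P = 1 + single L 1`; the coefficient of `incl P * H` at `n` is `H.coeff n + H.coeff (n - L)`: for `n ≤ 0` it is `0`, for `0 < n ≤ L` it is `H.coeff n`, for `n > L` it is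
`H.coeff (n - L) + H.coeff (n - L) = 0` (characteristic 2). -/
def EPR_stmt : Prop := ∀ (H : LL) (L : ℕ), 0 < L → (∀ n : ℤ, n ≤ 0 → H.coeff n = 0) →
  (∀ n : ℤ, 0 < n → H.coeff (n + L) = H.coeff n) →
  ∃ P Q : Polynomial kk, P ≠ 0 ∧ incl P * H = incl Q

/-- **EFN** (medium, 110 lines; uses EPR). The projection of a Lambert series with finitely many non-zero terms prime to `N`. `N` is odd (in the application squarefree and prime to 6).
Proof. `β m = f.coeff (m^2) + e`. For `n > 0` the coefficient of `psi f + e UU` at `n` is the sum of the `β m` (in `kk`) over the divisors `m` of `n` which are prime to 6 (`UU`: the number of these `m`). For `gcd (n, N) = 1` all these `m` are prime to `6 N`, so only those with `m < m₀` contribute. `H = PN N (psi f + e UU)`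
(`PN_coeff`) has the coefficient `[gcd(n,N) = 1] ∑_{m < m₀, m ∣ n, (m, 6) = 1} β m` at `n > 0` and `0` at `n ≤ 0` (`Nat.divisors 0 = ∅`; `ps` has no negative coefficients). It is periodic with the period `L = N * m₀!` (`m ∣ L` for `0 < m < m₀`; `gcd (n + L, N) = gcd (n, N)`; the sum over the `m ∣ n`, `m < m₀` is the sum over `m ∈ range m₀` with `m ∣ n`; `m = 0` does not divide `n > 0`). EPR. -/
def EFN_stmt : Prop := ∀ (f : KK) (e : ZMod 2) (N m₀ : ℕ), 0 < N →
  (∀ m : ℕ, m₀ ≤ m → m.Coprime (6 * N) → f.coeff ((m : ℤ) ^ 2) = e) →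
  ∃ P Q : Polynomial kk, P ≠ 0 ∧
    incl P * PN N (psi f + algebraMap (ZMod 2) kk e • UU) = incl Q

end Pool.Agent.QP
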